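import Mathlib

namespace Pool.Agent.H.MP_0a7d83_co
open Finset

/-- a facet: an inclusion-maximal face -/
def Facet {V : Type} (D : Set (Finset V)) (G : Finset V) : Prop :=
  G ∈ D ∧ ∀ H ∈ D, G ⊆ H → H = G

/-- the NF-complex: subsets containing no facet -/
def nf {V : Type} (D : Set (Finset V)) : Set (Finset V) := {F | ∀ G, Facet D G → ¬ G ⊆ F}

/-- isomorphism of complexes on the same vertex set -/
def Iso {V : Type} (D E : Set (Finset V)) : Prop :=
  ∃ p : V ≃ V, ∀ F, F ∈ D ↔ F.map p.toEmbedding ∈ E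

/-- a graph as the complex generated by its edges -/
def cx {V : Type} [DecidableEq V] (G : SimpleGraph V) : Set (Finset V) :=
  {F | ∃ u v, G.Adj u v ∧ F ⊆ {u, v}}

/-- adjacency of the dumbbell graph -/
def bAdj {n m : ℕ} : Fin n ⊕ Fin m → Fin n ⊕ Fin m → Prop
  | .inl i, .inl j => i ≠ j
  | .inr i, .inr j => i ≠ j
  | .inl i, .inr j => i.val = 0 ∧ j.val = 0
  | .inr j, .inl i => i.val = 0 ∧ j.val = 0

/-- the dumbbell graph: two cliques and the bridge between their vertices number 0 -/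
def bell (n m : ℕ) : SimpleGraph (Fin n ⊕ Fin m) where
  Adj := bAdj
  symm := ⟨by rintro (i | i) (j | j) h <;> simp_all [bAdj, ne_comm]⟩
  loopless := ⟨by rintro (i | i) h <;> simp_all [bAdj]⟩

section gen
variable {V : Type} [DecidableEq V]

theorem nf_eq {D : Set (Finset V)} {P : Finset V → Prop} (h : ∀ G, Facet D G ↔ P G) :
    nf D = {F | ∀ G, P G → ¬ G ⊆ F} := by
  ext F; simp only [nf, Set.mem_setOf_eq, h]

/-- the generic member of the orbit -/
def Dl (U L : Finset V → Prop) (r : ℕ) : Set (Finset V) :=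
  {F | F.card ≤ r ∨ (F.card = r + 1 ∧ ¬ U F) ∨ (F.card = r + 2 ∧ L F)}

structure Ok (U L : Finset V → Prop) (N : ℕ) : Prop where
  up : ∀ F G, F ⊆ G → U F → U G
  dn : ∀ F G, F ⊆ G → L G → L F
  anti : ∀ F G, F ⊆ G → U F → L G → G = F
  ul : ∀ F, U F → ¬ L F → ∃ z ∈ F, U (F.erase z)
  lu : ∀ F, L F → ¬ U F → ∃ z ∉ F, L (insert z F)
  d : ∀ F, ¬ L F → 3 ≤ F.card → ∃ z ∈ F, ¬ L (F.erase z)
  e : ∀ F, ¬ U F → F.card + 3 ≤ N → ∃ z ∉ F, ¬ U (insert z F)
  x : ∀ F : Finset V, F.card < N → ∃ z, z ∉ F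

variable {U L : Finset V → Prop} {N : ℕ}

theorem notmax {D : Set (Finset V)} {F : Finset V} {z : V} (hz : z ∉ F) (h : insert z F ∈ D) :
    ¬ Facet D F := fun hf => hz (by rw [← hf.2 _ h (subset_insert _ _)]; exact mem_insert_self _ _)

theorem facet_Dl (h : Ok U L N) {r : ℕ} (hr : r + 3 ≤ N) (G : Finset V) :
    Facet (Dl U L r) G ↔ (G.card = r ∧ U G) ∨ (G.card = r + 1 ∧ ¬ U G ∧ ¬ L G) ∨
      (G.card = r + 2 ∧ L G) := by
  constructor
  · intro hf
    rcases hf.1 with h1 | h1 | h1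
    · by_cases hU : U G
      · refine Or.inl ⟨?_, hU⟩
        by_contra hne
        obtain ⟨z, hz⟩ := h.x G (by omega)
        exact notmax hz (Or.inl (by rw [card_insert_of_notMem hz]; omega)) hf
      · obtain ⟨z, hz, hz'⟩ := h.e G hU (by omega)
        refine (notmax hz ?_ hf).elim
        by_cases hc : G.card = r
        · exact Or.inr (Or.inl ⟨by rw [card_insert_of_notMem hz]; omega, hz'⟩)
        · exact Or.inl (by rw [card_insert_of_notMem hz]; omega)
    · refine Or.inr (Or.inl ⟨h1.1, h1.2, fun hL => ?_⟩)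
      obtain ⟨z, hz, hz'⟩ := h.lu G hL h1.2
      exact notmax hz (Or.inr (Or.inr ⟨by rw [card_insert_of_notMem hz]; omega, hz'⟩)) hf
    · exact Or.inr (Or.inr h1)
  · rintro (h1 | h1 | h1)
    · refine ⟨Or.inl h1.1.le, fun H hH hs => ?_⟩
      rcases hH with h2 | h2 | h2
      · exact (eq_of_subset_of_card_le hs (by omega)).symm
      · exact (h2.2 (h.up _ _ hs h1.2)).elim
      · exact h.anti _ _ hs h1.2 h2.2
    · refine ⟨Or.inr (Or.inl ⟨h1.1, h1.2.1⟩), fun H hH hs => ?_⟩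
      rcases hH with h2 | h2 | h2
      · exact (eq_of_subset_of_card_le hs (by omega)).symm
      · exact (eq_of_subset_of_card_le hs (by omega)).symm
      · exact (h1.2.2 (h.dn _ _ hs h2.2)).elim
    · refine ⟨Or.inr (Or.inr h1), fun H hH hs => ?_⟩
      refine (eq_of_subset_of_card_le hs ?_).symm
      rcases hH with h2 | h2 | h2 <;> omega

/-- the sets containing no set of the three kinds -/
theorem avoid (h : Ok U L N) (r : ℕ) (P : Finset V → Prop)
    (h1 : ∀ G, G.card = r + 1 → (P G ↔ U G)) (h2 : ∀ G, G.card = r + 2 → P G → ¬ L G)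
    (h2' : ∀ G, G.card = r + 2 → ¬ U G → ¬ L G → P G)
    (h3 : ∀ G, G.card = r + 3 → L G → P G) (h0 : ∀ G, P G → r + 1 ≤ G.card) :
    {F | ∀ G, P G → ¬ G ⊆ F} = Dl U L r := by
  have two : ∀ F : Finset V, F.card = r + 2 → ¬ L F → ∃ G, P G ∧ G ⊆ F := by
    intro F hc hL
    by_cases hU : U F
    · obtain ⟨z, hz, hz'⟩ := h.ul F hU hL
      exact ⟨_, (h1 _ (by rw [card_erase_of_mem hz]; omega)).2 hz', erase_subset _ _⟩
    · exact ⟨F, h2' F hc hU hL, subset_rfl⟩
  ext F
  constructor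
  · intro hF
    by_contra hn
    simp only [Dl, Set.mem_setOf_eq, not_or, not_and, not_not, not_le] at hn
    by_cases c1 : F.card = r + 1
    · exact hF F ((h1 F c1).2 (hn.2.1 c1)) subset_rfl
    by_cases c2 : F.card = r + 2
    · obtain ⟨G, hG, hs⟩ := two F c2 (hn.2.2 c2)
      exact hF G hG hs
    obtain ⟨F', hs, hc⟩ := exists_subset_card_eq (s := F) (n := r + 3) (by omega)
    by_cases hL : L F'
    · exact hF F' (h3 _ hc hL) hs
    · obtain ⟨z, hz, hz'⟩ := h.d F' hL (by omega)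
      obtain ⟨G, hG, hs'⟩ := two _ (by rw [card_erase_of_mem hz]; omega) hz'
      exact hF G hG (hs'.trans ((erase_subset _ _).trans hs))
  · intro hF G hG hs
    have hc := card_le_card hs
    have := h0 G hG
    rcases hF with h4 | h4 | h4
    · omega
    · exact h4.2 (h.up _ _ hs ((h1 G (by omega)).1 hG))
    · by_cases c1 : G.card = r + 1
      · have := h.anti _ _ hs ((h1 G c1).1 hG) h4.2
        subst this; omega
      · exact h2 G (by omega) hG (h.dn _ _ hs h4.2)

theorem step (h : Ok U L N) {r : ℕ} (hr : r + 4 ≤ N) : nf (Dl U L (r + 1)) = Dl U L r := by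
  rw [nf_eq (facet_Dl h (by omega))]
  refine avoid h r _ ?_ ?_ ?_ ?_ ?_
  · intro G hG; constructor
    · rintro (h1 | h1 | h1)
      · exact h1.2
      all_goals omega
    · exact fun hU => Or.inl ⟨hG, hU⟩
  · rintro G hG (h1 | h1 | h1)
    · omega
    · exact h1.2.2
    · omega
  · exact fun G hG a b => Or.inr (Or.inl ⟨hG, a, b⟩)
  · exact fun G hG a => Or.inr (Or.inr ⟨hG, a⟩)
  · rintro G (h1 | h1 | h1) <;> omega

end gen
end Pool.Agent.H.MP_0a7d83_co
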