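import Pool.Agent.H.MP_0a7d83_co.A

namespace Pool.Agent.H.MP_0a7d83_co
open Finset Sum

variable {n m : ℕ}

def LL (F : Finset (Fin (n + 2) ⊕ Fin (m + 2))) : Prop :=
  (∀ j, inr j ∉ F) ∨ (∀ i, inl i ∉ F) ∨ (∀ v ∈ F, v = inl 0 ∨ v = inr 0)

def UU (F : Finset (Fin (n + 2) ⊕ Fin (m + 2))) : Prop :=
  (∀ i, inl i ∈ F) ∨ (∀ j, inr j ∈ F) ∨ (inl 0 ∈ F ∧ inr 0 ∈ F)

theorem cle (F : Finset (Fin (n + 2) ⊕ Fin (m + 2))) : F.card ≤ n + m + 4 := by
  have := card_le_univ F
  simp only [Fintype.card_sum, Fintype.card_fin] at this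
  omega

theorem out (F : Finset (Fin (n + 2) ⊕ Fin (m + 2))) (h : F.card < n + m + 4) : ∃ z, z ∉ F := by
  by_contra hn
  push Not at hn
  have : F = univ := eq_univ_iff_forall.2 hn
  subst this
  simp only [card_univ, Fintype.card_sum, Fintype.card_fin] at h
  omega

theorem third {V : Type} [DecidableEq V] (F : Finset V) (h : 3 ≤ F.card) (a b : V) :
    ∃ z ∈ F, z ≠ a ∧ z ≠ b := by
  by_contra hn
  push Not at hn
  have : F ⊆ {a, b} := fun z hz => by
    by_cases h1 : z = a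
    · simp [h1]
    · simp [hn z hz h1]
  have h2 := card_le_card this
  have := card_le_two (a := a) (b := b)
  omega

theorem third' (F : Finset (Fin (n + 2) ⊕ Fin (m + 2))) (h : F.card + 3 ≤ n + m + 4) (a b) :
    ∃ z ∉ F, z ≠ a ∧ z ≠ b := by
  obtain ⟨z, hz⟩ := out (insert a (insert b F))
    (by have := card_insert_le a (insert b F); have := card_insert_le b F; omega)
  simp only [mem_insert, not_or] at hz
  exact ⟨z, hz.2.2, hz.1, hz.2.1⟩

theorem nL {F : Finset (Fin (n + 2) ⊕ Fin (m + 2))} :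
    ¬ LL F ↔ ∃ i j, inl i ∈ F ∧ inr j ∈ F ∧ (i ≠ 0 ∨ j ≠ 0) := by
  simp only [LL, not_or, not_forall, not_not]
  constructor
  · rintro ⟨⟨j, hj⟩, ⟨i, hi⟩, v, hv, h1, h2⟩
    rcases v with v | v
    · exact ⟨v, j, hv, hj, Or.inl fun h => h1 (by rw [h])⟩
    · exact ⟨i, v, hi, hv, Or.inr fun h => h2 (by rw [h])⟩
  · rintro ⟨i, j, hi, hj, h | h⟩
    · exact ⟨⟨j, hj⟩, ⟨i, hi⟩, _, hi, by simpa using h, by simp⟩
    · exact ⟨⟨j, hj⟩, ⟨i, hi⟩, _, hj, by simp, by simpa using h⟩

theorem nU {F : Finset (Fin (n + 2) ⊕ Fin (m + 2))} :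
    ¬ UU F ↔ ∃ i j, inl i ∉ F ∧ inr j ∉ F ∧ (i = 0 ∨ j = 0) := by
  simp only [UU, not_or, not_forall, not_and_or]
  constructor
  · rintro ⟨⟨i, hi⟩, ⟨j, hj⟩, h | h⟩
    · exact ⟨0, j, h, hj, Or.inl rfl⟩
    · exact ⟨i, 0, hi, h, Or.inr rfl⟩
  · rintro ⟨i, j, hi, hj, rfl | rfl⟩
    · exact ⟨⟨_, hi⟩, ⟨_, hj⟩, Or.inl hi⟩
    · exact ⟨⟨_, hi⟩, ⟨_, hj⟩, Or.inr hj⟩

theorem ok : Ok (UU (n := n) (m := m)) LL (n + m + 4) where
  up := by
    rintro F G h (h1 | h1 | h1)
    · exact Or.inl fun i => h (h1 i)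
    · exact Or.inr (Or.inl fun i => h (h1 i))
    · exact Or.inr (Or.inr ⟨h h1.1, h h1.2⟩)
  dn := by
    rintro F G h (h1 | h1 | h1)
    · exact Or.inl fun i hi => h1 i (h hi)
    · exact Or.inr (Or.inl fun i hi => h1 i (h hi))
    · exact Or.inr (Or.inr fun v hv => h1 v (h hv))
  anti := by
    rintro F G h (h1 | h1 | h1) (h2 | h2 | h2)
    · refine Subset.antisymm ?_ h
      rintro (v | v) hv
      · exact h1 v
      · exact (h2 v hv).elim
    · exact (h2 0 (h (h1 0))).elim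
    · have := h2 _ (h (h1 1)); simp at this
    · exact (h2 0 (h (h1 0))).elim
    · refine Subset.antisymm ?_ h
      rintro (v | v) hv
      · exact (h2 v hv).elim
      · exact h1 v
    · have := h2 _ (h (h1 1)); simp at this
    · exact (h2 0 (h h1.2)).elim
    · exact (h2 0 (h h1.1)).elim
    · refine Subset.antisymm (fun v hv => ?_) h
      rcases h2 v hv with rfl | rfl
      · exact h1.1
      · exact h1.2
  ul := by
    intro F hU hL
    obtain ⟨i, j, hi, hj, h⟩ := nL.1 hL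
    rcases hU with h1 | h1 | h1
    · exact ⟨_, hj, Or.inl fun i => by simp [h1 i]⟩
    · exact ⟨_, hi, Or.inr (Or.inl fun i => by simp [h1 i])⟩
    · rcases h with h | h
      · exact ⟨_, hi, Or.inr (Or.inr (by simp [h1.1, h1.2, h.symm]))⟩
      · exact ⟨_, hj, Or.inr (Or.inr (by simp [h1.1, h1.2, h.symm]))⟩
  lu := by
    intro F hL hU
    obtain ⟨i, j, hi, hj, h⟩ := nU.1 hU
    rcases hL with h1 | h1 | h1
    · exact ⟨_, hi, Or.inl fun i => by simp [h1 i]⟩
    · exact ⟨_, hj, Or.inr (Or.inl fun i => by simp [h1 i])⟩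
    · rcases h with rfl | rfl
      · refine ⟨_, hi, Or.inr (Or.inr fun v hv => ?_)⟩
        rcases mem_insert.1 hv with rfl | hv
        · exact Or.inl rfl
        · exact h1 v hv
      · refine ⟨_, hj, Or.inr (Or.inr fun v hv => ?_)⟩
        rcases mem_insert.1 hv with rfl | hv
        · exact Or.inr rfl
        · exact h1 v hv
  d := by
    intro F hL hc
    obtain ⟨i, j, hi, hj, h⟩ := nL.1 hL
    obtain ⟨z, hz, h1, h2⟩ := third F hc (inl i) (inr j)
    exact ⟨z, hz, nL.2 ⟨i, j, mem_erase.2 ⟨h1.symm, hi⟩, mem_erase.2 ⟨h2.symm, hj⟩, h⟩⟩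
  e := by
    intro F hU hc
    obtain ⟨i, j, hi, hj, h⟩ := nU.1 hU
    obtain ⟨z, hz, h1, h2⟩ := third' F hc (inl i) (inr j)
    refine ⟨z, hz, nU.2 ⟨i, j, ?_, ?_, h⟩⟩ <;> simp [hi, hj, h1.symm, h2.symm]
  x := out

theorem big {F : Finset (Fin (n + 2) ⊕ Fin (m + 2))} (h : ¬ UU F) : F.card ≤ n + m + 2 := by
  obtain ⟨i, j, hi, hj, -⟩ := nU.1 h
  have := cle (insert (inl i) (insert (inr j) F))
  rw [card_insert_of_notMem (by simp [hi]), card_insert_of_notMem hj] at this
  omega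

theorem small {F : Finset (Fin (n + 2) ⊕ Fin (m + 2))} (h : ¬ LL F) : 2 ≤ F.card := by
  obtain ⟨i, j, hi, hj, -⟩ := nL.1 h
  exact one_lt_card.2 ⟨_, hi, _, hj, by simp⟩

theorem smallU {F : Finset (Fin (n + 2) ⊕ Fin (m + 2))} (h : UU F) : 2 ≤ F.card := by
  rcases h with h | h | h
  · exact one_lt_card.2 ⟨_, h 0, _, h 1, by simp⟩
  · exact one_lt_card.2 ⟨_, h 0, _, h 1, by simp⟩
  · exact one_lt_card.2 ⟨_, h.1, _, h.2, by simp⟩

theorem adj_iff (u v : Fin (n + 2) ⊕ Fin (m + 2)) :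
    (bell (n + 2) (m + 2)).Adj u v ↔ u ≠ v ∧ LL {u, v} := by
  rw [← not_not (a := LL _), nL]
  rcases u with u | u <;> rcases v with v | v <;> simp [bell, bAdj]

theorem d0 : cx (bell (n + 2) (m + 2)) = Dl UU LL 0 := by
  ext F
  constructor
  · rintro ⟨u, v, h, hs⟩
    rw [adj_iff] at h
    have hc := card_le_card hs
    rw [card_pair h.1] at hc
    by_cases c0 : F.card = 0
    · exact Or.inl c0.le
    by_cases c1 : F.card = 1
    · exact Or.inr (Or.inl ⟨c1, fun hU => by have := smallU hU; omega⟩)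
    · exact Or.inr (Or.inr ⟨by omega, ok.dn _ _ hs h.2⟩)
  · have one : ∀ v : Fin (n + 2) ⊕ Fin (m + 2), ∃ u, (bell (n + 2) (m + 2)).Adj v u := by
      rintro (v | v)
      · obtain ⟨w, hw⟩ := exists_ne v
        exact ⟨inl w, hw.symm⟩
      · obtain ⟨w, hw⟩ := exists_ne v
        exact ⟨inr w, hw.symm⟩
    rintro (h | h | h)
    · obtain ⟨u, hu⟩ := one (inl 0)
      exact ⟨_, _, hu, by rw [card_eq_zero.1 (Nat.le_zero.1 h)]; exact empty_subset _⟩
    · obtain ⟨v, rfl⟩ := card_eq_one.1 h.1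
      obtain ⟨u, hu⟩ := one v
      exact ⟨_, _, hu, by simp⟩
    · obtain ⟨u, v, huv, rfl⟩ := card_eq_two.1 h.1
      exact ⟨u, v, (adj_iff u v).2 ⟨huv, h.2⟩, subset_rfl⟩

def D1 (n m : ℕ) : Set (Finset (Fin (n + 2) ⊕ Fin (m + 2))) :=
  {F | ∀ G, (G.card = 2 ∧ LL G) → ¬ G ⊆ F}

theorem d1 : nf (Dl UU LL 0) = D1 n m := by
  refine nf_eq fun G => ?_
  rw [facet_Dl ok (by omega)]
  constructor
  · rintro (h | h | h)
    · have := smallU h.2; omega
    · have := small h.2.2; omega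
    · exact h
  · exact fun h => Or.inr (Or.inr h)

theorem tri (a b c : Fin (n + 2) ⊕ Fin (m + 2)) : LL {a, b} ∨ LL {a, c} ∨ LL {b, c} := by
  rcases a with a | a <;> rcases b with b | b <;> rcases c with c | c <;> simp [LL]

theorem D1_le {F} (h : F ∈ D1 n m) : F.card ≤ 2 := by
  by_contra hc
  obtain ⟨a, ha, b, hb, c, hc, hab, hac, hbc⟩ := two_lt_card.1 (not_le.1 hc)
  rcases tri a b c with h1 | h1 | h1
  · exact h _ ⟨card_pair hab, h1⟩ (by simp [insert_subset_iff, ha, hb])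
  · exact h _ ⟨card_pair hac, h1⟩ (by simp [insert_subset_iff, ha, hc])
  · exact h _ ⟨card_pair hbc, h1⟩ (by simp [insert_subset_iff, hb, hc])

theorem D1_mem {G} (h : G.card = 2) (hL : ¬ LL G) : G ∈ D1 n m := fun H hH hs =>
  hL (by rw [← eq_of_subset_of_card_le hs (by omega)]; exact hH.2)

theorem d2 : nf (D1 n m) = {F | LL F} := by
  have : ∀ G, Facet (D1 n m) G ↔ G.card = 2 ∧ ¬ LL G := by
    intro G
    constructor
    · intro hf
      have hc := D1_le hf.1
      by_cases c0 : G.card = 0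
      · refine (notmax (z := inl 0) (by simp [card_eq_zero.1 c0]) (fun H hH hs => ?_) hf).elim
        have := card_le_card hs
        have := card_insert_le (inl 0) G
        omega
      by_cases c1 : G.card = 1
      · obtain ⟨v, rfl⟩ := card_eq_one.1 c1
        rcases v with v | v
        · exact (notmax (z := inr 1) (by simp)
            (D1_mem (card_pair (by simp)) (nL.2 ⟨v, 1, by simp⟩)) hf).elim
        · exact (notmax (z := inl 1) (by simp)
            (D1_mem (card_pair (by simp)) (nL.2 ⟨1, v, by simp⟩)) hf).elim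
      · exact ⟨by omega, fun hL => hf.1 G ⟨by omega, hL⟩ subset_rfl⟩
    · exact fun h => ⟨D1_mem h.1 h.2, fun H hH hs =>
        (eq_of_subset_of_card_le hs (by have := D1_le hH; omega)).symm⟩
  rw [nf_eq this]
  ext F
  constructor
  · intro h
    by_contra hL
    obtain ⟨i, j, hi, hj, h1⟩ := nL.1 hL
    exact h {inl i, inr j} ⟨card_pair (by simp), nL.2 ⟨i, j, by simp, by simp, h1⟩⟩
      (by simp [insert_subset_iff, hi, hj])
  · exact fun h G hG hs => hG.2 (ok.dn _ _ hs h)

theorem d3 : nf {F | LL (n := n) (m := m) F} = {F | ¬ UU F} := by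
  have : ∀ G, Facet {F | LL (n := n) (m := m) F} G ↔ LL G ∧ UU G := by
    intro G
    constructor
    · intro hf
      refine ⟨hf.1, by_contra fun hU => ?_⟩
      obtain ⟨z, hz, hz'⟩ := ok.lu G hf.1 hU
      exact notmax hz hz' hf
    · exact fun h => ⟨h.1, fun H hH hs => ok.anti _ _ hs h.2 hH⟩
  rw [nf_eq this]
  ext F
  constructor
  · intro h hU
    induction F using Finset.strongInduction with
    | H F ih =>
      by_cases hL : LL F
      · exact h F ⟨hL, hU⟩ subset_rfl
      · obtain ⟨z, hz, hz'⟩ := ok.ul F hU hL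
        exact ih _ (erase_ssubset hz) (fun G hG hs => h G hG (hs.trans (erase_subset _ _))) hz'
  · exact fun h G hG hs => h (ok.up _ _ hs hG.2)

def D4 (n m : ℕ) : Set (Finset (Fin (n + 2) ⊕ Fin (m + 2))) :=
  {F | F.card ≤ n + m + 1 ∨ (F.card = n + m + 2 ∧ UU F)}

theorem d4 : nf {F | ¬ UU (n := n) (m := m) F} = D4 n m := by
  have : ∀ G, Facet {F | ¬ UU (n := n) (m := m) F} G ↔ ¬ UU G ∧ G.card = n + m + 2 := by
    intro G
    constructor
    · intro hf
      refine ⟨hf.1, by_contra fun hc => ?_⟩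
      obtain ⟨z, hz, hz'⟩ := ok.e G hf.1 (by have := big hf.1; omega)
      exact notmax hz hz' hf
    · exact fun h => ⟨h.1, fun H hH hs =>
        (eq_of_subset_of_card_le hs (by have := big hH; omega)).symm⟩
  rw [nf_eq this]
  ext F
  constructor
  · intro h
    by_contra hn
    simp only [D4, Set.mem_setOf_eq, not_or, not_and, not_le] at hn
    by_cases c : F.card = n + m + 2
    · exact h F ⟨hn.2 c, c⟩ subset_rfl
    obtain ⟨F', hs, hc⟩ := exists_subset_card_eq (s := F) (n := n + m + 3) (by omega)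
    obtain ⟨z, hz⟩ := out F' (by omega)
    have all : ∀ w, w ≠ z → w ∈ F' := fun w hw => by_contra fun hw' => by
      have := cle (insert z (insert w F'))
      rw [card_insert_of_notMem (by simp [hz, hw.symm]), card_insert_of_notMem hw'] at this
      omega
    rcases z with z | z
    · exact h (F'.erase (inr 0)) ⟨nU.2 ⟨z, 0, by simp [hz], by simp, by simp⟩,
        by rw [card_erase_of_mem (all _ (by simp))]; omega⟩ ((erase_subset _ _).trans hs)
    · exact h (F'.erase (inl 0)) ⟨nU.2 ⟨0, z, by simp, by simp [hz], by simp⟩,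
        by rw [card_erase_of_mem (all _ (by simp))]; omega⟩ ((erase_subset _ _).trans hs)
  · rintro (h | h) G hG hs
    · have := card_le_card hs; omega
    · exact hG.1 (by rw [eq_of_subset_of_card_le hs (by omega)]; exact h.2)

theorem ext3 {G : Finset (Fin (n + 2) ⊕ Fin (m + 2))} (hc : G.card = n + m + 1) :
    ∃ z ∉ G, UU (insert z G) := by
  by_contra hn
  push Not at hn
  obtain ⟨z, hz⟩ := out G (by omega)
  obtain ⟨i, j, hi, hj, -⟩ := nU.1 (hn z hz)
  simp only [mem_insert, not_or] at hi hj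
  have all : ∀ w, w ∉ G → w = z ∨ w = inl i ∨ w = inr j := fun w hw => by_contra fun h => by
    simp only [not_or] at h
    have := cle (insert w (insert z (insert (inl i) (insert (inr j) G))))
    rw [card_insert_of_notMem (by simp [hw, h]), card_insert_of_notMem (by simp [hz, Ne.symm hi.1, Ne.symm hj.1]),
      card_insert_of_notMem (by simp [hi.2]), card_insert_of_notMem hj.2] at this
    omega
  rcases z with z | z
  · refine hn _ hj.2 (Or.inr (Or.inl fun k => by_contra fun hk => ?_))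
    simp only [mem_insert, not_or] at hk
    simpa [hk.1] using all _ hk.2
  · refine hn _ hi.2 (Or.inl fun k => by_contra fun hk => ?_)
    simp only [mem_insert, not_or] at hk
    simpa [hk.1] using all _ hk.2

theorem d5 (hnm : 1 ≤ n + m) : nf (D4 n m) = Dl UU LL (n + m + 1) := by
  have : ∀ G, Facet (D4 n m) G ↔ G.card = n + m + 2 ∧ UU G := by
    intro G
    constructor
    · intro hf
      rcases hf.1 with h | h
      · by_cases c : G.card = n + m + 1
        · obtain ⟨z, hz, hz'⟩ := ext3 c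
          exact (notmax hz (Or.inr ⟨by rw [card_insert_of_notMem hz]; omega, hz'⟩) hf).elim
        · obtain ⟨z, hz⟩ := out G (by omega)
          exact (notmax hz (Or.inl (by rw [card_insert_of_notMem hz]; omega)) hf).elim
      · exact h
    · refine fun h => ⟨Or.inr h, fun H hH hs => (eq_of_subset_of_card_le hs ?_).symm⟩
      rcases hH with h2 | h2 <;> omega
  rw [nf_eq this]
  refine avoid ok _ _ (fun G hG => ⟨fun h => h.2, fun h => ⟨hG, h⟩⟩) (fun G hG h => by omega)
    (fun G hG h => by have := big h; omega) (fun G hG h => ?_) (fun G hG => by omega)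
  exfalso
  have hu : G = univ := eq_univ_of_card _ (by simp; omega)
  subst hu
  exact nL.2 ⟨1, 1, by simp⟩ h

end Pool.Agent.H.MP_0a7d83_co
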